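import Mathlib
import Pool.Agent.N637.SLM.Stm6

/-!
# Project AN (helper637), leaf AN/CNT: a subgroup of squarefree numbers, squares in `ℚ_2` and `ℚ_3` (helper468)
-/

set_option autoImplicit false

namespace Pool.Agent.N468.AN

open Finset

/-- numbers `1 mod 8` are squares in `ℚ_2` -/
lemma sq_two {n : ℤ} (hn : n % 8 = 1) : IsSquare (n : ℚ_[2]) := by
  obtain ⟨z, hz, -⟩ := hensels_lemma (p := 2) (R := ℤ_[2])
    (F := Polynomial.X ^ 2 - Polynomial.C (n : ℤ_[2])) (a := 1) (by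
      have h1 : ‖((1 - n : ℤ) : ℤ_[2])‖ ≤ (2 : ℝ) ^ (-(3 : ℕ) : ℤ) :=
        PadicInt.norm_int_le_pow_iff_dvd.2 (by push_cast; omega)
      have h2 : ‖(2 : ℤ_[2])‖ = 2⁻¹ := by
        have := PadicInt.norm_p (p := 2)
        simpa using this
      simp only [map_sub, map_pow, Polynomial.aeval_X, Polynomial.aeval_C, one_pow,
        Polynomial.derivative_X_pow, Polynomial.derivative_C]
      simp only [Algebra.algebraMap_self, RingHom.id_apply]
      have e : (1 : ℤ_[2]) - (n : ℤ_[2]) = ((1 - n : ℤ) : ℤ_[2]) := by push_cast; ring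
      rw [e]
      refine lt_of_le_of_lt h1 ?_
      norm_num [h2])
  simp only [map_sub, map_pow, Polynomial.aeval_X, Polynomial.aeval_C,
    Algebra.algebraMap_self, RingHom.id_apply] at hz
  refine ⟨(z : ℚ_[2]), ?_⟩
  have h3 : (n : ℤ_[2]) = z ^ 2 := by linear_combination -hz
  have h4 := congrArg (fun x : ℤ_[2] => (x : ℚ_[2])) h3
  simp only [PadicInt.coe_intCast, PadicInt.coe_pow] at h4
  rw [h4]
  ring

/-- numbers `1 mod 3` are squares in `ℚ_3` -/
lemma sq_three {n : ℤ} (hn : n % 3 = 1) : IsSquare (n : ℚ_[3]) := by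
  obtain ⟨z, hz, -⟩ := hensels_lemma (p := 3) (R := ℤ_[3])
    (F := Polynomial.X ^ 2 - Polynomial.C (n : ℤ_[3])) (a := 1) (by
      have h1 : ‖((1 - n : ℤ) : ℤ_[3])‖ ≤ (3 : ℝ) ^ (-(1 : ℕ) : ℤ) :=
        PadicInt.norm_int_le_pow_iff_dvd.2 (by push_cast; omega)
      have h2 : ‖(2 : ℤ_[3])‖ = 1 := by
        have h3 := PadicInt.norm_int_lt_one_iff_dvd (p := 3) 2
        have h4 : ¬ ‖((2 : ℤ) : ℤ_[3])‖ < 1 := by
          rw [h3]
          omega
        have h5 : ‖((2 : ℤ) : ℤ_[3])‖ ≤ 1 := PadicInt.norm_le_one _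
        have h6 : ((2 : ℤ) : ℤ_[3]) = 2 := by norm_num
        rw [h6] at h4 h5
        exact le_antisymm h5 (not_lt.1 h4)
      simp only [map_sub, map_pow, Polynomial.aeval_X, Polynomial.aeval_C, one_pow,
        Polynomial.derivative_X_pow, Polynomial.derivative_C]
      simp only [Algebra.algebraMap_self, RingHom.id_apply]
      have e : (1 : ℤ_[3]) - (n : ℤ_[3]) = ((1 - n : ℤ) : ℤ_[3]) := by push_cast; ring
      rw [e]
      refine lt_of_le_of_lt h1 ?_
      norm_num [h2])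
  simp only [map_sub, map_pow, Polynomial.aeval_X, Polynomial.aeval_C,
    Algebra.algebraMap_self, RingHom.id_apply] at hz
  refine ⟨(z : ℚ_[3]), ?_⟩
  have h3 : (n : ℤ_[3]) = z ^ 2 := by linear_combination -hz
  have h4 := congrArg (fun x : ℤ_[3] => (x : ℚ_[3])) h3
  simp only [PadicInt.coe_intCast, PadicInt.coe_pow] at h4
  rw [h4]
  ring

lemma mul_mod8 {u v : ℕ} (h : u % 8 = v % 8) (hu : u % 2 = 1) : (u * v) % 8 = 1 := by
  rw [Nat.mul_mod, ← h]
  have h1 : u % 8 = 1 ∨ u % 8 = 3 ∨ u % 8 = 5 ∨ u % 8 = 7 := by omega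
  rcases h1 with h1 | h1 | h1 | h1 <;> rw [h1]

lemma mul_mod3 {u v : ℕ} (h : u % 3 = v % 3) (hu : u % 3 ≠ 0) : (u * v) % 3 = 1 := by
  rw [Nat.mul_mod, ← h]
  have h1 : u % 3 = 1 ∨ u % 3 = 2 := by omega
  rcases h1 with h1 | h1 <;> rw [h1]

lemma not_four {d : ℕ} (hd : Squarefree d) : d % 4 ≠ 0 := by
  intro h
  have h1 := hd 2 (by omega)
  rw [Nat.isUnit_iff] at h1
  omega

lemma not_nine {d : ℕ} (hd : Squarefree d) : d % 9 ≠ 0 := by
  intro h
  have h1 := hd 3 (by omega)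
  rw [Nat.isUnit_iff] at h1
  omega

lemma sq2 {d e : ℕ} (hd : Squarefree d) (h : d % 16 = e % 16) :
    IsSquare ((d * e : ℕ) : ℚ_[2]) := by
  by_cases hodd : d % 2 = 1
  · have h1 := mul_mod8 (u := d) (v := e) (by omega) hodd
    have h2 := sq_two (n := ((d * e : ℕ) : ℤ)) (by omega)
    rwa [Int.cast_natCast] at h2
  · have h4 := not_four hd
    obtain ⟨u, hu⟩ : ∃ u, d = 2 * u := ⟨d / 2, by omega⟩
    obtain ⟨v, hv⟩ : ∃ v, e = 2 * v := ⟨e / 2, by omega⟩
    have h1 := mul_mod8 (u := u) (v := v) (by omega) (by omega)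
    obtain ⟨r, hr⟩ := sq_two (n := ((u * v : ℕ) : ℤ)) (by omega)
    rw [Int.cast_natCast] at hr
    refine ⟨2 * r, ?_⟩
    have h2 : d * e = 4 * (u * v) := by rw [hu, hv]; ring
    rw [h2, Nat.cast_mul, hr]
    push_cast
    ring

lemma sq3 {d e : ℕ} (hd : Squarefree d) (h : d % 9 = e % 9) :
    IsSquare ((d * e : ℕ) : ℚ_[3]) := by
  by_cases hodd : d % 3 = 0
  · have h4 := not_nine hd
    obtain ⟨u, hu⟩ : ∃ u, d = 3 * u := ⟨d / 3, by omega⟩
    obtain ⟨v, hv⟩ : ∃ v, e = 3 * v := ⟨e / 3, by omega⟩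
    have h1 := mul_mod3 (u := u) (v := v) (by omega) (by omega)
    obtain ⟨r, hr⟩ := sq_three (n := ((u * v : ℕ) : ℤ)) (by omega)
    rw [Int.cast_natCast] at hr
    refine ⟨3 * r, ?_⟩
    have h2 : d * e = 9 * (u * v) := by rw [hu, hv]; ring
    rw [h2, Nat.cast_mul, hr]
    push_cast
    ring
  · have h1 := mul_mod3 (u := d) (v := e) (by omega) hodd
    have h2 := sq_three (n := ((d * e : ℕ) : ℤ)) (by omega)
    rwa [Int.cast_natCast] at h2

lemma sq_quot {K : Type} [Field K] [CharZero K] {a g k : ℕ} (hg : g ≠ 0) (h : a = g ^ 2 * k)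
    (ha : IsSquare ((a : ℕ) : K)) : IsSquare ((k : ℕ) : K) := by
  obtain ⟨r, hr⟩ := ha
  have hg' : (g : K) ≠ 0 := Nat.cast_ne_zero.2 hg
  refine ⟨r / g, ?_⟩
  rw [h] at hr
  push_cast at hr
  field_simp
  linear_combination hr

lemma eq_of_sq {d d' s : ℕ} (hd : Squarefree d) (hd' : Squarefree d') (h : d * d' = s ^ 2) : d = d' := by
  have h1 : d ∣ s := (hd.dvd_pow_iff_dvd two_ne_zero).1 ⟨d', h.symm⟩
  obtain ⟨t, rfl⟩ := h1
  have hd0 : d ≠ 0 := hd.ne_zero
  have h2 : d' = d * t ^ 2 := by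
    have h3 : d * d' = d * (d * t ^ 2) := by rw [h]; ring
    exact Nat.eq_of_mul_eq_mul_left (Nat.pos_of_ne_zero hd0) h3
  have h4 : IsUnit t := hd' t ⟨d, by rw [h2]; ring⟩
  rw [Nat.isUnit_iff] at h4
  rw [h2, h4]
  ring

lemma inj {d d' e g g' k : ℕ} (hd : Squarefree d) (hd' : Squarefree d') (he : e ≠ 0)
    (h : d * e = g ^ 2 * k) (h' : d' * e = g' ^ 2 * k) : d = d' := by
  have h1 : e ^ 2 * (d * d') = (g * g' * k) ^ 2 := by
    have : e ^ 2 * (d * d') = (d * e) * (d' * e) := by ring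
    rw [this, h, h']
    ring
  have h2 : e ∣ g * g' * k := (Nat.pow_dvd_pow_iff two_ne_zero).1 ⟨d * d', h1.symm⟩
  obtain ⟨s, hs⟩ := h2
  have h3 : d * d' = s ^ 2 := by
    rw [hs] at h1
    have h4 : e ^ 2 * (d * d') = e ^ 2 * s ^ 2 := by rw [h1]; ring
    exact Nat.eq_of_mul_eq_mul_left (by positivity) h4
  exact eq_of_sq hd hd' h3

open Classical in
/-- AN-CNT -/
theorem t_CNT : Pool.Agent.N637.SLM.S_CNT144 := by
  intro D hD hsf hcl
  obtain ⟨F, rfl⟩ := hD.exists_finset_coe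
  set G : Finset ℕ := F.filter fun d => IsSquare ((d : ℕ) : ℚ_[2]) ∧ IsSquare ((d : ℕ) : ℚ_[3]) with hG
  have e1 : {d ∈ (F : Set ℕ) | IsSquare ((d : ℕ) : ℚ_[2]) ∧ IsSquare ((d : ℕ) : ℚ_[3])} = (G : Set ℕ) := by
    ext d
    rw [hG, Finset.coe_filter]
    rfl
  rw [e1, Set.ncard_coe_finset, Set.ncard_coe_finset]
  have hfib : ∀ v ∈ F.image (fun d => (d % 16, d % 9)), (F.filter fun d => (d % 16, d % 9) = v).card ≤ G.card := by
    intro v hv
    obtain ⟨e, heF, he⟩ := Finset.mem_image.1 hv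
    have hk : ∀ d ∈ F, ∃ k, k ∈ F ∧ d * e = (d.gcd e) ^ 2 * k := fun d hd => by
      obtain ⟨k, h1, h2⟩ := hcl d hd e heF
      exact ⟨k, h1, h2⟩
    choose! f hf1 hf2 using hk
    refine Finset.card_le_card_of_injOn f ?_ ?_
    · intro d hd
      rw [Finset.mem_coe, Finset.mem_filter] at hd
      obtain ⟨hdF, hdv⟩ := hd
      rw [← he, Prod.mk.injEq] at hdv
      have hg : d.gcd e ≠ 0 := Nat.gcd_ne_zero_left (hsf d hdF).ne_zero
      rw [Finset.mem_coe, hG, Finset.mem_filter]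
      exact ⟨hf1 d hdF, sq_quot hg (hf2 d hdF) (sq2 (hsf d hdF) hdv.1),
        sq_quot hg (hf2 d hdF) (sq3 (hsf d hdF) hdv.2)⟩
    · intro d hd d' hd' hdd
      rw [Finset.mem_coe, Finset.mem_filter] at hd hd'
      have h1 := hf2 d hd.1
      have h2 := hf2 d' hd'.1
      rw [← hdd] at h2
      exact inj (hsf d hd.1) (hsf d' hd'.1) (hsf e heF).ne_zero h1 h2
  have h1 := Finset.card_le_mul_card_image F G.card hfib
  have h2 : (F.image (fun d => (d % 16, d % 9))).card ≤ 144 := by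
    have h3 : F.image (fun d => (d % 16, d % 9)) ⊆ Finset.range 16 ×ˢ Finset.range 9 := by
      intro v hv
      obtain ⟨e, -, he⟩ := Finset.mem_image.1 hv
      rw [← he, Finset.mem_product, Finset.mem_range, Finset.mem_range]
      exact ⟨Nat.mod_lt _ (by norm_num), Nat.mod_lt _ (by norm_num)⟩
    refine (Finset.card_le_card h3).trans ?_
    rw [Finset.card_product, Finset.card_range, Finset.card_range]
  calc F.card ≤ G.card * (F.image (fun d => (d % 16, d % 9))).card := h1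
    _ ≤ G.card * 144 := Nat.mul_le_mul_left _ h2
    _ = 144 * G.card := mul_comm _ _

end Pool.Agent.N468.AN
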